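import Mathlib
import Pool.Agent.Helper16.SYM.Defs

/-!
# SYM-C6 (project SYM, MP_9410e4): passing from a finite extension to the ground field
-/

set_option autoImplicit false

namespace Helper83.SYM

open Pool.Agent.Helper16.SYM
open scoped TensorProduct

universe u

section Descend

variable {K K₁ : Type u} [Field K] [Field K₁] [Algebra K K₁]
  {A A₁ : Type u} [CommRing A] [CommRing A₁] [Algebra K A] [Algebra K₁ A₁] [Algebra K A₁]
  [IsScalarTower K K₁ A₁]

/-- The ring homomorphism between tensor powers over different fields. -/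
noncomputable def TT (f : A →ₐ[K] A₁) (N : ℕ) :
    (⨂[K] _ : Fin N, A) →ₐ[K] (⨂[K₁] _ : Fin N, A₁) :=
  PiTensorProduct.liftAlgHom
    (((PiTensorProduct.tprod K₁ (s := fun _ : Fin N => A₁)).restrictScalars K).compLinearMap
      fun _ => f.toLinearMap)
    (by
      show PiTensorProduct.tprod K₁ (fun i => f ((1 : Fin N → A) i)) = 1
      rw [PiTensorProduct.one_def]
      congr 1
      funext i
      simp)
    (by
      intro x y
      show PiTensorProduct.tprod K₁ (fun i => f ((x * y) i)) =
        PiTensorProduct.tprod K₁ (fun i => f (x i)) * PiTensorProduct.tprod K₁ (fun i => f (y i))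
      rw [PiTensorProduct.tprod_mul_tprod]
      congr 1
      funext i
      simp)

lemma TT_tprod (f : A →ₐ[K] A₁) (N : ℕ) (a : Fin N → A) :
    TT (K₁ := K₁) f N (PiTensorProduct.tprod K a) = PiTensorProduct.tprod K₁ (fun i => f (a i)) := by
  unfold TT
  rw [PiTensorProduct.liftAlgHom_apply]
  rw [PiTensorProduct.lift.tprod]
  rfl

lemma TT_injective (f : A →ₐ[K] A₁)
    (hf : ∀ (n : ℕ) (v : Fin n → A), LinearIndependent K v → LinearIndependent K₁ (f ∘ v))
    (N : ℕ) : Function.Injective (TT (K₁ := K₁) f N) := by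
  classical
  let b := Module.Basis.ofVectorSpace K A
  have hfb : LinearIndependent K₁ (f ∘ b) := by
    rw [linearIndependent_iff_finset_linearIndependent]
    intro s
    have h1 : LinearIndependent K (b ∘ (Subtype.val : s → _)) :=
      b.linearIndependent.comp _ Subtype.val_injective
    let e : Fin s.card ≃ s := s.equivFin.symm
    have h2 := hf s.card (b ∘ (Subtype.val : s → _) ∘ e) (h1.comp e e.injective)
    have h3 := h2.comp e.symm e.symm.injective
    have h4 : (f ∘ (b ∘ (Subtype.val : s → _) ∘ e)) ∘ e.symm =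
        (f ∘ b) ∘ (Subtype.val : s → _) := by
      funext x
      simp
    rwa [h4] at h3
  have hli0 : LinearIndepOn K₁ id (Set.range (f ∘ b)) := hfb.linearIndepOn_id
  let b₁ := Module.Basis.extend hli0
  let em : Module.Basis.ofVectorSpaceIndex K A → hli0.extend (Set.subset_univ _) := fun i =>
    ⟨f (b i), Module.Basis.subset_extend hli0 ⟨i, rfl⟩⟩
  have hem : Function.Injective em := by
    intro i j hij
    exact hfb.injective (congrArg Subtype.val hij)
  have hb₁ : ∀ i, b₁ (em i) = f (b i) := by
    intro i
    exact Module.Basis.extend_apply_self hli0 (em i)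
  have hli : LinearIndependent K₁ (fun p : Fin N → _ =>
      PiTensorProduct.tprod K₁ (fun i => f (b (p i)))) := by
    have h1 := (Basis.piTensorProduct (fun _ : Fin N => b₁)).linearIndependent
    have h2 := h1.comp (fun p : Fin N → Module.Basis.ofVectorSpaceIndex K A => fun i => em (p i)) (by
      intro p q hpq
      funext i
      exact hem (congrFun hpq i))
    have h3 : ((Basis.piTensorProduct (fun _ : Fin N => b₁)) ∘
        (fun p : Fin N → Module.Basis.ofVectorSpaceIndex K A => fun i => em (p i))) =
        fun p : Fin N → _ => PiTensorProduct.tprod K₁ (fun i => f (b (p i))) := by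
      funext p
      simp only [Function.comp, Basis.piTensorProduct_apply]
      congr 1
      funext i
      exact hb₁ (p i)
    rwa [h3] at h2
  have hliK := hli.restrict_scalars' K
  have hinj : Function.Injective (TT (K₁ := K₁) f N).toLinearMap := by
    refine LinearMap.injective_of_linearIndependent
      (v := Basis.piTensorProduct (fun _ : Fin N => b)) (Module.Basis.span_eq _) ?_
    have h3 : ((TT (K₁ := K₁) f N).toLinearMap ∘ (Basis.piTensorProduct (fun _ : Fin N => b))) =
        fun p : Fin N → _ => PiTensorProduct.tprod K₁ (fun i => f (b (p i))) := by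
      funext p
      simp only [Function.comp, Basis.piTensorProduct_apply]
      exact TT_tprod f N _
    rw [h3]
    exact hliK
  exact hinj

lemma reindex_TT (f : A →ₐ[K] A₁) (N : ℕ) (σ : Equiv.Perm (Fin N)) (z : ⨂[K] _ : Fin N, A) :
    PiTensorProduct.reindex K₁ (fun _ => A₁) σ (TT (K₁ := K₁) f N z) =
      TT (K₁ := K₁) f N (PiTensorProduct.reindex K (fun _ => A) σ z) := by
  induction z using PiTensorProduct.induction_on with
  | smul_tprod r a =>
    have h : ∀ w : ⨂[K₁] _ : Fin N, A₁, r • w = (algebraMap K K₁ r) • w :=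
      fun w => (algebraMap_smul K₁ r w).symm
    rw [map_smul (TT (K₁ := K₁) f N), TT_tprod, h, map_smul, PiTensorProduct.reindex_tprod,
      map_smul (PiTensorProduct.reindex K (fun _ => A) σ), PiTensorProduct.reindex_tprod,
      map_smul (TT (K₁ := K₁) f N), TT_tprod, h]
  | add x y hx hy => rw [map_add, map_add, map_add, map_add, hx, hy]

end Descend

/-- C6: passing from a finite extension to the ground field -/
theorem descend {K K₁ : Type u} [Field K] [Field K₁] [Algebra K K₁] [FiniteDimensional K K₁]
    {A A₁ : Type u} [CommRing A] [CommRing A₁] [Algebra K A] [Algebra K₁ A₁] [Algebra K A₁]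
    [IsScalarTower K K₁ A₁] (f : A →ₐ[K] A₁)
    (hf : ∀ (n : ℕ) (v : Fin n → A), LinearIndependent K v → LinearIndependent K₁ (f ∘ v))
    {N : ℕ} (h : PDA K₁ (symPow K₁ A₁ N)) : PDA K (symPow K A N) := by
  obtain ⟨L, hL, hLa, hfin, hφ⟩ := h
  let algL : Algebra K L := Algebra.compHom L (algebraMap K K₁)
  have tower : IsScalarTower K K₁ L := IsScalarTower.of_algebraMap_eq (fun _ => rfl)
  refine ⟨L, hL, algL, FiniteDimensional.trans K K₁ L, fun z hz => ?_⟩
  -- the image of `z`
  have hmem : ∀ w : symPow K A N, TT (K₁ := K₁) f N (w : ⨂[K] _ : Fin N, A) ∈ symPow K₁ A₁ N := by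
    intro w σ
    rw [reindex_TT, w.2 σ]
  have key : (⟨TT (K₁ := K₁) f N (z : ⨂[K] _ : Fin N, A), hmem z⟩ : symPow K₁ A₁ N) = 0 := by
    apply hφ
    intro ψ
    let φ : symPow K A N →ₐ[K] L :=
      { toFun := fun w => ψ ⟨TT (K₁ := K₁) f N (w : ⨂[K] _ : Fin N, A), hmem w⟩
        map_one' := by
          have : (⟨TT (K₁ := K₁) f N ((1 : symPow K A N) : ⨂[K] _ : Fin N, A), hmem 1⟩ :
              symPow K₁ A₁ N) = 1 := by
            apply Subtype.ext
            show TT (K₁ := K₁) f N ((1 : symPow K A N) : ⨂[K] _ : Fin N, A) = 1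
            rw [OneMemClass.coe_one, map_one]
          rw [this, map_one]
        map_mul' := by
          intro x y
          have : (⟨TT (K₁ := K₁) f N ((x * y : symPow K A N) : ⨂[K] _ : Fin N, A), hmem (x * y)⟩ :
              symPow K₁ A₁ N) = ⟨TT (K₁ := K₁) f N (x : ⨂[K] _ : Fin N, A), hmem x⟩ *
                ⟨TT (K₁ := K₁) f N (y : ⨂[K] _ : Fin N, A), hmem y⟩ := by
            apply Subtype.ext
            show TT (K₁ := K₁) f N ((x * y : symPow K A N) : ⨂[K] _ : Fin N, A) =
              TT (K₁ := K₁) f N (x : ⨂[K] _ : Fin N, A) * TT (K₁ := K₁) f N (y : ⨂[K] _ : Fin N, A)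
            rw [MulMemClass.coe_mul, map_mul]
          rw [this, map_mul]
        map_zero' := by
          have : (⟨TT (K₁ := K₁) f N ((0 : symPow K A N) : ⨂[K] _ : Fin N, A), hmem 0⟩ :
              symPow K₁ A₁ N) = 0 := by
            apply Subtype.ext
            show TT (K₁ := K₁) f N ((0 : symPow K A N) : ⨂[K] _ : Fin N, A) = 0
            rw [ZeroMemClass.coe_zero, map_zero]
          rw [this, map_zero]
        map_add' := by
          intro x y
          have : (⟨TT (K₁ := K₁) f N ((x + y : symPow K A N) : ⨂[K] _ : Fin N, A), hmem (x + y)⟩ :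
              symPow K₁ A₁ N) = ⟨TT (K₁ := K₁) f N (x : ⨂[K] _ : Fin N, A), hmem x⟩ +
                ⟨TT (K₁ := K₁) f N (y : ⨂[K] _ : Fin N, A), hmem y⟩ := by
            apply Subtype.ext
            show TT (K₁ := K₁) f N ((x + y : symPow K A N) : ⨂[K] _ : Fin N, A) =
              TT (K₁ := K₁) f N (x : ⨂[K] _ : Fin N, A) + TT (K₁ := K₁) f N (y : ⨂[K] _ : Fin N, A)
            rw [AddMemClass.coe_add, map_add]
          rw [this, map_add]
        commutes' := by
          intro r
          have h1 : (⟨TT (K₁ := K₁) f N ((algebraMap K (symPow K A N) r : symPow K A N) :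
              ⨂[K] _ : Fin N, A), hmem _⟩ : symPow K₁ A₁ N) =
              algebraMap K₁ (symPow K₁ A₁ N) (algebraMap K K₁ r) := by
            apply Subtype.ext
            show TT (K₁ := K₁) f N (algebraMap K (⨂[K] _ : Fin N, A) r) =
              algebraMap K₁ (⨂[K₁] _ : Fin N, A₁) (algebraMap K K₁ r)
            rw [AlgHom.commutes, ← IsScalarTower.algebraMap_apply]
          rw [h1, AlgHom.commutes]
          rfl }
    exact hz φ
  have h0 : TT (K₁ := K₁) f N (z : ⨂[K] _ : Fin N, A) = 0 := congrArg Subtype.val key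
  apply Subtype.ext
  apply TT_injective f hf N
  rw [h0, ZeroMemClass.coe_zero, map_zero]

end Helper83.SYM
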